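import Pool.Agent.N662.FP.Stm

/-!
Project FL (helper662), parts ME and INT: measurability and integrability of the passage time
(helper31).
-/

set_option autoImplicit false

open MeasureTheory ProbabilityTheory Filter Set
open scoped ENNReal Pointwise Topology

namespace Pool.Agent.N31.FL

open Pool.Agent.N662.FP

instance : Countable (Sym2 (ℤ × ℤ)) := inferInstanceAs (Countable (Quot _))

/-- **ME** -/
theorem t_ME (h : S_GE) : S_ME := by
  intro a v
  refine measurable_of_Ici fun t => ?_
  have h1 : (fun x : Sym2 (ℤ × ℤ) → ℝ => D (fun e => max (x e) 0) a v) ⁻¹' Ici t =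
      ⋂ (N : ℕ), {x | Win (fun e => max (x e) 0) a v N t} := by
    ext x
    rw [mem_preimage, mem_Ici, mem_iInter]
    exact (h (fun e => max (x e) 0) (fun e => le_max_right _ _) a v).2.2.2 t
  rw [h1]
  refine MeasurableSet.iInter fun N => IsClosed.measurableSet ?_
  have h2 : {x : Sym2 (ℤ × ℤ) → ℝ | Win (fun e => max (x e) 0) a v N t} =
      ⋂ (n : ℕ) (_ : n ≤ N) (p : ℕ → ℤ × ℤ) (_ : p 0 = a) (_ : p n = v)
        (_ : ∀ i < n, |(p (i + 1)).1 - (p i).1| + |(p (i + 1)).2 - (p i).2| = 1),
        {x : Sym2 (ℤ × ℤ) → ℝ | t ≤ ∑ i ∈ Finset.range n, max (x s(p i, p (i + 1))) 0} := by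
    ext x
    simp only [mem_iInter]
    rfl
  rw [h2]
  refine isClosed_iInter fun n => isClosed_iInter fun _ => isClosed_iInter fun p =>
    isClosed_iInter fun _ => isClosed_iInter fun _ => isClosed_iInter fun _ => ?_
  refine isClosed_le continuous_const (continuous_finsetSum _ fun i _ => ?_)
  exact (continuous_apply _).max continuous_const

/-- **INT** -/
theorem t_INT (h1 : S_ME) (h2 : S_AE) (h3 : S_GE) (h4 : S_EXPI) (h5 : S_PATH) : S_INT := by
  intro Ω _ _ X hX a v
  have hae := h2 Ω X hX
  obtain ⟨n, p, hp0, hpn, hp⟩ := h5 a v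
  have hint : ∀ e, Integrable (X e) (volume : Measure Ω) := by
    intro e
    have h6 : Integrable (fun x : ℝ => x) (Measure.map (X e) (volume : Measure Ω)) := by
      rw [hX.law e]
      exact h4
    exact (integrable_map_measure h6.aestronglyMeasurable (hX.meas e).aemeasurable).1 h6
  have hsum : Integrable (fun ω => ∑ i ∈ Finset.range n, X s(p i, p (i + 1)) ω)
      (volume : Measure Ω) := integrable_finsetSum _ fun i _ => hint _
  have hmeas : AEStronglyMeasurable (fun ω => D (env X ω) a v) (volume : Measure Ω) := by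
    have hm : Measurable fun ω => D (fun e => max (env X ω e) 0) a v :=
      (h1 a v).comp (measurable_pi_lambda _ fun e => hX.meas e)
    refine hm.aestronglyMeasurable.congr ?_
    filter_upwards [hae] with ω hω
    have : (fun e => max (env X ω e) 0) = env X ω := funext fun e => max_eq_left (hω e)
    rw [this]
  refine hsum.mono' hmeas ?_
  filter_upwards [hae] with ω hω
  obtain ⟨-, hb, h0, -⟩ := h3 (env X ω) hω a v
  rw [Real.norm_eq_abs, abs_of_nonneg h0]
  exact csInf_le hb ⟨n, p, hp0, hpn, hp, rfl⟩

end Pool.Agent.N31.FL
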